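import Pool.Agent.Helper46.TTT.Spec

/-!
# COL2: from a colouring of integers to a drawing position on `[n]^d`
-/

set_option autoImplicit false

namespace Pool.Agent.Helper27.TTT.COL2

open Finset Pool.Agent.Helper46.TTT

lemma xl (a b c : Bool) (h : xor a c = xor b c) : a = b := by
  revert a b c; decide

lemma xr (a b c : Bool) (h : xor a b = xor a c) : b = c := by
  revert a b c; decide

/-- the centred coordinate -/
def ff (n : ℕ) (t : Fin n) : ℤ := 2 * (t : ℤ) - ((n : ℤ) - 1)

lemma ff_rev {n : ℕ} (t : Fin n) : ff n (Fin.rev t) = - ff n t := by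
  have h := t.2
  have h2 : ((Fin.rev t : Fin n) : ℕ) = n - (t + 1) := Fin.val_rev t
  unfold ff
  omega

/-- the sum of squares -/
def SS {n d : ℕ} (x : Fin d → Fin n) : ℕ := ∑ i, (ff n (x i)).natAbs ^ 2

/-- the first non-zero centred coordinate is positive -/
def HH {n d : ℕ} (x : Fin d → Fin n) : Bool :=
  decide (∃ i, 0 < ff n (x i) ∧ ∀ j, j < i → ff n (x j) = 0)

lemma HH_first {n d : ℕ} (x : Fin d → Fin n) (i : Fin d) (h0 : ∀ j, j < i → ff n (x j) = 0)
    (hi : ff n (x i) ≠ 0) : HH x = decide (0 < ff n (x i)) := by
  unfold HH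
  by_cases hp : 0 < ff n (x i)
  · rw [decide_eq_true hp]
    exact decide_eq_true ⟨i, hp, h0⟩
  · rw [decide_eq_false hp]
    apply decide_eq_false
    rintro ⟨i', h1, h2⟩
    rcases lt_trichotomy i' i with h | h | h
    · have := h0 i' h
      omega
    · subst h
      exact hp h1
    · exact hi (h2 i h)

/-- the first index with a property -/
lemma first_idx {d : ℕ} (p : Fin d → Prop) (h : ∃ i, p i) :
    ∃ i, p i ∧ ∀ j, j < i → ¬ p j := by
  classical
  have hne : (univ.filter p).Nonempty := by
    obtain ⟨i, hi⟩ := h
    exact ⟨i, by simp [hi]⟩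
  refine ⟨(univ.filter p).min' hne, ?_, ?_⟩
  · have := (univ.filter p).min'_mem hne
    simpa using this
  · intro j hj hp
    have := (univ.filter p).min'_le j (by simp [hp])
    exact absurd hj (not_lt.2 this)

lemma SS_line {n d : ℕ} (a : Fin d → Fin n) (s : Fin d → Fin 3) (t : Fin n) :
    SS (lpt a s t) = (∑ i, if s i = 0 then (ff n (a i)).natAbs ^ 2 else 0)
      + (univ.filter fun i => s i ≠ 0).card * (ff n t).natAbs ^ 2 := by
  unfold SS
  rw [Finset.card_filter, Finset.sum_mul, ← Finset.sum_add_distrib]
  apply Finset.sum_congr rfl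
  intro i _
  unfold lpt
  by_cases h0 : s i = 0
  · simp [h0]
  · by_cases h1 : s i = 1
    · simp [h1]
    · simp [h0, h1, ff_rev]

lemma HH_rev {n d : ℕ} (x : Fin d → Fin n) (h : ∃ i, ff n (x i) ≠ 0) :
    HH (fun i => Fin.rev (x i)) = !HH x := by
  obtain ⟨i, hi, h0⟩ := first_idx (fun i => ff n (x i) ≠ 0) h
  have h0' : ∀ j, j < i → ff n (x j) = 0 := fun j hj => not_not.1 (h0 j hj)
  rw [HH_first x i h0' hi, HH_first (fun i => Fin.rev (x i)) i
    (fun j hj => by simp only [ff_rev, h0' j hj, neg_zero]) (by simp only [ff_rev]; simpa using hi)]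
  simp only [ff_rev]
  by_cases hp : 0 < ff n (x i)
  · rw [decide_eq_true hp, decide_eq_false (by omega)]
    rfl
  · rw [decide_eq_false hp, decide_eq_true (by omega)]
    rfl

lemma SS_rev {n d : ℕ} (x : Fin d → Fin n) : SS (fun i => Fin.rev (x i)) = SS x := by
  unfold SS
  simp only [ff_rev, Int.natAbs_neg]

lemma qq_last (n : ℕ) (hn : 2 ≤ n) : qq n (n - n / 2 - 1) = (n - 1) ^ 2 := by
  unfold qq pp
  congr 1
  omega

lemma natAbs_le {n : ℕ} (t : Fin n) : (ff n t).natAbs ≤ n - 1 := by
  have := t.2
  unfold ff
  omega

theorem main : S_COL2 := by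
  intro n d hn ω hω
  refine ⟨fun x => xor (ω (SS x)) (HH x), ?_, ?_⟩
  · -- proper
    intro a s hs
    obtain ⟨i0, hi0, hfirst⟩ := first_idx (fun i => s i ≠ 0) hs
    have hfirst' : ∀ j, j < i0 → s j = 0 := fun j hj => not_not.1 (hfirst j hj)
    by_cases hA : ∃ j, j < i0 ∧ ff n (a j) ≠ 0
    · -- the order is constant on the line
      obtain ⟨j0, ⟨hj0, hj0'⟩, hmin⟩ := first_idx (fun j => j < i0 ∧ ff n (a j) ≠ 0) hA
      have hz : ∀ j, j < j0 → ff n (a j) = 0 := by
        intro j hj
        by_contra hne
        exact hmin j hj ⟨hj.trans hj0, hne⟩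
      have hcoord : ∀ t j, j ≤ j0 → lpt a s t j = a j := by
        intro t j hj
        unfold lpt
        rw [if_pos (hfirst' j (lt_of_le_of_lt hj hj0))]
      have hconst : ∀ t, HH (lpt a s t) = decide (0 < ff n (a j0)) := by
        intro t
        rw [HH_first (lpt a s t) j0 (fun j hj => by rw [hcoord t j hj.le]; exact hz j hj)
          (by rw [hcoord t j0 le_rfl]; exact hj0'), hcoord t j0 le_rfl]
      set m := (univ.filter fun i => s i ≠ 0).card with hm
      set C := ∑ i, (if s i = 0 then (ff n (a i)).natAbs ^ 2 else 0) with hC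
      have hm1 : 1 ≤ m := Finset.card_pos.2 ⟨i0, by simp [hi0]⟩
      have hmd : m ≤ d := by
        have := Finset.card_filter_le (univ : Finset (Fin d)) (fun i => s i ≠ 0)
        simpa using this
      have hCle : C + m * (n - 1) ^ 2 ≤ d * (n - 1) ^ 2 := by
        have h1 : C + m * (n - 1) ^ 2
            = ∑ i : Fin d, (if s i = 0 then (ff n (a i)).natAbs ^ 2 else (n - 1) ^ 2) := by
          rw [hC, hm, Finset.card_filter, Finset.sum_mul, ← Finset.sum_add_distrib]
          apply Finset.sum_congr rfl
          intro i _
          by_cases h0 : s i = 0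
          · simp [h0]
          · simp [h0]
        rw [h1]
        calc ∑ i : Fin d, (if s i = 0 then (ff n (a i)).natAbs ^ 2 else (n - 1) ^ 2)
            ≤ ∑ _i : Fin d, (n - 1) ^ 2 := by
              apply Finset.sum_le_sum
              intro i _
              split_ifs
              · exact Nat.pow_le_pow_left (natAbs_le _) 2
              · exact le_rfl
          _ = d * (n - 1) ^ 2 := by simp
      have hb : C + m * qq n (n - n / 2 - 1) ≤ d * n ^ 2 := by
        rw [qq_last n hn]
        refine le_trans hCle (Nat.mul_le_mul_left d (Nat.pow_le_pow_left (by omega) 2))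
      obtain ⟨j, j', hj, hj', hne⟩ := hω C m hm1 hmd hb
      have hval : ∀ j, (hj : n / 2 + j < n) →
          SS (lpt a s ⟨n / 2 + j, hj⟩) = C + m * qq n j := by
        intro j hj
        rw [SS_line]
        congr 2
        unfold qq pp ff
        congr 1
        simp only
        omega
      refine ⟨⟨n / 2 + j, by omega⟩, ⟨n / 2 + j', by omega⟩, ?_⟩
      simp only
      rw [hval j (by omega), hval j' (by omega), hconst, hconst]
      intro h
      exact hne (xl _ _ _ h)
    · -- the two ends of the line
      have hz : ∀ j, j < i0 → ff n (a j) = 0 := by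
        intro j hj
        by_contra hne
        exact hA ⟨j, hj, hne⟩
      set t : Fin n := ⟨n - 1, by omega⟩ with ht
      have hft : ff n t = (n : ℤ) - 1 := by
        unfold ff
        simp only [ht]
        omega
      have hft' : ff n (Fin.rev t) = -((n : ℤ) - 1) := by rw [ff_rev, hft]
      have hSS : SS (lpt a s (Fin.rev t)) = SS (lpt a s t) := by
        rw [SS_line, SS_line, ff_rev, Int.natAbs_neg]
      have hzero : ∀ u j, j < i0 → ff n (lpt a s u j) = 0 := by
        intro u j hj
        unfold lpt
        rw [if_pos (hfirst' j hj)]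
        exact hz j hj
      have hrv : ff n (lpt a s (Fin.rev t) i0) = - ff n (lpt a s t i0) := by
        unfold lpt
        rw [if_neg hi0, if_neg hi0]
        split_ifs
        · rw [ff_rev]
        · rw [ff_rev]
      have hne0 : ff n (lpt a s t i0) ≠ 0 := by
        unfold lpt
        rw [if_neg hi0]
        split_ifs
        · rw [hft]; omega
        · rw [hft']; omega
      refine ⟨t, Fin.rev t, ?_⟩
      simp only
      rw [hSS, HH_first (lpt a s t) i0 (hzero t) hne0,
        HH_first (lpt a s (Fin.rev t)) i0 (hzero _) (by rw [hrv]; simpa using hne0), hrv]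
      intro h
      have h2 := xr _ _ _ h
      by_cases hp : 0 < ff n (lpt a s t i0)
      · rw [decide_eq_true hp, decide_eq_false (by omega)] at h2
        exact Bool.noConfusion h2
      · rw [decide_eq_false hp, decide_eq_true (by omega)] at h2
        exact Bool.noConfusion h2
  · -- halving
    unfold Halving
    set c : (Fin d → Fin n) → Bool := fun x => xor (ω (SS x)) (HH x) with hc
    set rv : (Fin d → Fin n) → (Fin d → Fin n) := fun x i => Fin.rev (x i) with hrv
    have hrr : ∀ x, rv (rv x) = x := by
      intro x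
      funext i
      simp [hrv]
    set Z : Finset (Fin d → Fin n) := univ.filter fun x => ∀ i, ff n (x i) = 0 with hZ
    have hflip : ∀ x, x ∉ Z → c (rv x) = !c x := by
      intro x hx
      have h1 : ∃ i, ff n (x i) ≠ 0 := by
        by_contra h
        push Not at h
        exact hx (by simp [hZ, h])
      simp only [hc, hrv]
      rw [SS_rev, HH_rev x h1]
      simp
    have hZrv : ∀ x, x ∉ Z → rv x ∉ Z := by
      intro x hx h
      apply hx
      simp only [hZ, mem_filter, mem_univ, true_and, hrv, ff_rev] at h ⊢
      intro i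
      have := h i
      omega
    have hZ1 : Z.card ≤ 1 := by
      rw [Finset.card_le_one]
      intro x hx y hy
      simp only [hZ, mem_filter, mem_univ, true_and] at hx hy
      funext i
      have h1 := hx i
      have h2 := hy i
      unfold ff at h1 h2
      apply Fin.ext
      omega
    have hA : ((univ.filter fun x => c x = true) \ Z).card
        = ((univ.filter fun x => c x = false) \ Z).card := by
      apply Finset.card_bij (fun x _ => rv x)
      · intro x hx
        simp only [mem_sdiff, mem_filter, mem_univ, true_and] at hx ⊢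
        exact ⟨by rw [hflip x hx.2, hx.1]; rfl, hZrv x hx.2⟩
      · intro x _ y _ h
        have h2 : rv (rv x) = rv (rv y) := congrArg rv h
        rwa [hrr, hrr] at h2
      · intro y hy
        simp only [mem_sdiff, mem_filter, mem_univ, true_and] at hy
        refine ⟨rv y, ?_, hrr y⟩
        simp only [mem_sdiff, mem_filter, mem_univ, true_and]
        exact ⟨by rw [hflip y hy.2, hy.1]; rfl, hZrv y hy.2⟩
    have h1 := Finset.card_sdiff_add_card_inter (univ.filter fun x => c x = true) Z
    have h2 := Finset.card_sdiff_add_card_inter (univ.filter fun x => c x = false) Z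
    have h3 : ((univ.filter fun x => c x = true) ∩ Z).card ≤ Z.card :=
      Finset.card_le_card Finset.inter_subset_right
    have h4 : ((univ.filter fun x => c x = false) ∩ Z).card ≤ Z.card :=
      Finset.card_le_card Finset.inter_subset_right
    rw [abs_le]
    constructor
    · omega
    · omega

end Pool.Agent.Helper27.TTT.COL2
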